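import Pool.Agent.FHQ.StmtsT

/-!
# Squad FHQ, row TM1: definable sets in one variable, one field
-/

open scoped BigOperators

noncomputable section

namespace Pool.Agent.FHQ.H65

open Polynomial Pool.Agent.FHQ

theorem arg_zero {p D : ℕ} (s : Fin D → ℤ) (g : ℤ) (k : Fin D) :
    ¬ Arg (p := p) (fun _ => 0) s g k := fun h => h.1 rfl

theorem sp_zero {p D : ℕ} (s : Fin D → ℤ) (g : ℤ) (z : ZMod p) :
    Sp (fun _ => 0) s g z = 0 := by
  unfold Sp
  refine Finset.sum_eq_zero fun k _ => ?_
  rw [if_neg (arg_zero s g k)]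

theorem mu_zero {p D : ℕ} (s : Fin D → ℤ) (g : ℤ) :
    Mu (p := p) (fun _ => 0) s g = 0 := by
  unfold Mu
  rw [dif_neg]
  rintro ⟨k, hk⟩
  exact arg_zero s g k hk

theorem rts_sub {K : Type} [Field K] {r D : ℕ} {h : Fin r → K[X]} (hD : 2 ≤ D)
    (hd : ∀ l, (h l).natDegree < D) :
    (Rts (insert X (Set.range h))).Finite ∧
      (Rts (insert X (Set.range h))).ncard ≤ (r + 1) * D ^ 2 := by
  classical
  obtain ⟨P, hP⟩ : ∃ P : Option (Fin r) → K[X], P = fun o => o.elim X h := ⟨_, rfl⟩
  obtain ⟨F, hF⟩ : ∃ F : Finset K, F = (Finset.univ : Finset (Option (Fin r))).biUnion fun o =>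
      (Finset.range D).biUnion fun s => (derivative^[s] (P o)).roots.toFinset := ⟨_, rfl⟩
  have hPd : ∀ o, (P o).natDegree < D := by
    intro o
    rw [hP]
    cases o with
    | none =>
      show (X : K[X]).natDegree < D
      rw [natDegree_X]
      omega
    | some l => exact hd l
  have hsub : Rts (insert X (Set.range h)) ⊆ (F : Set K) := by
    rintro c ⟨w, hw, s, hs, hc⟩
    obtain ⟨o, ho⟩ : ∃ o, P o = w := by
      rcases hw with hw | ⟨l, hl⟩
      · exact ⟨none, by rw [hP, hw]; rfl⟩
      · exact ⟨some l, by rw [hP, ← hl]; rfl⟩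
    rw [Finset.mem_coe, hF, Finset.mem_biUnion]
    refine ⟨o, Finset.mem_univ _, ?_⟩
    rw [Finset.mem_biUnion]
    refine ⟨s, ?_, ?_⟩
    · rw [Finset.mem_range]
      by_contra hcon
      push Not at hcon
      refine hs (iterate_derivative_eq_zero ?_)
      rw [← ho]
      exact lt_of_lt_of_le (hPd o) hcon
    · rw [Multiset.mem_toFinset, ho]
      exact (mem_roots hs).2 hc
  refine ⟨F.finite_toSet.subset hsub, ?_⟩
  calc (Rts (insert X (Set.range h))).ncard ≤ (F : Set K).ncard :=
        Set.ncard_le_ncard hsub F.finite_toSet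
    _ = F.card := Set.ncard_coe_finset F
    _ ≤ (r + 1) * D ^ 2 := by
        rw [hF]
        refine Finset.card_biUnion_le.trans ?_
        calc ∑ o : Option (Fin r), ((Finset.range D).biUnion fun s =>
              (derivative^[s] (P o)).roots.toFinset).card
            ≤ ∑ _o : Option (Fin r), D ^ 2 := by
              refine Finset.sum_le_sum fun o _ => ?_
              refine Finset.card_biUnion_le.trans ?_
              calc ∑ s ∈ Finset.range D, (derivative^[s] (P o)).roots.toFinset.card
                  ≤ ∑ _s ∈ Finset.range D, D := by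
                    refine Finset.sum_le_sum fun s _ => ?_
                    refine (Multiset.toFinset_card_le _).trans ((card_roots' _).trans ?_)
                    have h1 := natDegree_iterate_derivative (P o) s
                    have h2 := hPd o
                    omega
                _ = D ^ 2 := by
                    rw [Finset.sum_const, Finset.card_range, smul_eq_mul, pow_two]
          _ = (r + 1) * D ^ 2 := by
              rw [Finset.sum_const, Finset.card_univ, Fintype.card_option, Fintype.card_fin,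
                smul_eq_mul]

theorem tm1 (nea : NeaStmt) (exp : ExpStmt) : Tm1Stmt := by
  intro p _ K _ A r D h hD hDp hd C
  obtain ⟨hfin, hcard⟩ := rts_sub hD hd
  refine ⟨hfin, hcard, ?_⟩
  intro x hx
  have hHd : ∀ w ∈ insert X (Set.range h), w.natDegree < D := by
    rintro w (hw | ⟨l, hl⟩)
    · rw [hw, natDegree_X]
      omega
    · rw [← hl]
      exact hd l
  obtain ⟨hn1, hn2, -⟩ := nea p K A D (insert X (Set.range h)) hDp
    ((Set.finite_range h).insert X) hHd
  have h0 : (0 : K) ∈ Rts (insert X (Set.range h)) :=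
    ⟨X, Set.mem_insert _ _, 0, X_ne_zero, eval_X⟩
  refine ⟨hn2 x hx ⟨0, h0⟩, ?_⟩
  intro c hc hcc
  have hxc : x - c ≠ 0 := by
    intro h1
    rw [sub_eq_zero] at h1
    exact hx (h1 ▸ hc)
  have key : ∀ l, A.ac ((h l).eval x) = Sp (fun k : Fin D => A.ac ((taylor c (h l)).coeff k))
        (fun k : Fin D => A.v ((taylor c (h l)).coeff k)) (A.v (x - c)) (A.ac (x - c)) ∧
      A.v ((h l).eval x) = Mu (fun k : Fin D => A.ac ((taylor c (h l)).coeff k))
        (fun k : Fin D => A.v ((taylor c (h l)).coeff k)) (A.v (x - c)) := by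
    intro l
    by_cases hl : h l = 0
    · have e1 : (fun k : Fin D => A.ac ((taylor c (h l)).coeff k)) = fun _ => 0 := by
        funext k
        rw [hl, map_zero, coeff_zero]
        exact (A.ac_zero 0).2 rfl
      rw [e1, sp_zero, mu_zero, hl, eval_zero]
      exact ⟨(A.ac_zero 0).2 rfl, A.v_zero⟩
    · have h1 := hn1 x c hx hc hcc (h l) (Set.mem_insert_of_mem _ ⟨l, rfl⟩) hl
      have h2 : taylor c (h l) ≠ 0 := by
        intro h3
        apply hl
        exact taylor_injective c (by rw [h3, map_zero])
      have h4 := (exp p K A.toAcF0 (taylor c (h l)) D h2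
        (by rw [natDegree_taylor]; exact hd l) (x - c) hxc).1 h1
      rw [taylor_eval, sub_add_cancel] at h4
      exact ⟨h4.2.1, h4.2.2⟩
  unfold Lead
  have e1 : (fun l => A.ac ((h l).eval x)) = fun l =>
      Sp (fun k : Fin D => A.ac ((taylor c (h l)).coeff k))
        (fun k : Fin D => A.v ((taylor c (h l)).coeff k)) (A.v (x - c)) (A.ac (x - c)) :=
    funext fun l => (key l).1
  have e2 : (fun l => A.v ((h l).eval x)) = fun l =>
      Mu (fun k : Fin D => A.ac ((taylor c (h l)).coeff k))
        (fun k : Fin D => A.v ((taylor c (h l)).coeff k)) (A.v (x - c)) :=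
    funext fun l => (key l).2
  rw [e1, e2]

end Pool.Agent.FHQ.H65
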